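import Mathlib

set_option autoImplicit false
set_option linter.unusedSectionVars false
set_option linter.unusedVariables false

namespace Pool.Agent.V11251.Light

open Finset

variable {F : Type*} [Field F] [LinearOrder F] [IsStrictOrderedRing F]

/-- Minkowski product on `F^(m+3)`, time coordinate `0`. -/
def ip {m : ℕ} (x y : Fin (m + 3) → F) : F :=
  x 0 * y 0 - ∑ i : Fin (m + 2), x i.succ * y i.succ

variable {m : ℕ}

theorem ip_comm (x y : Fin (m + 3) → F) : ip x y = ip y x := by
  unfold ip; rw [mul_comm]; congr 1; exact Finset.sum_congr rfl fun i _ => mul_comm _ _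

theorem ip_add_left (x y z : Fin (m + 3) → F) : ip (x + y) z = ip x z + ip y z := by
  unfold ip; simp only [Pi.add_apply, add_mul, Finset.sum_add_distrib]; ring

theorem ip_smul_left (c : F) (x y : Fin (m + 3) → F) : ip (c • x) y = c * ip x y := by
  unfold ip; simp only [Pi.smul_apply, smul_eq_mul, mul_assoc, mul_sub, Finset.mul_sum]

theorem ip_neg_left (x y : Fin (m + 3) → F) : ip (-x) y = - ip x y := by
  have := ip_smul_left (-1) x y
  simpa using this

theorem ip_sub_left (x y z : Fin (m + 3) → F) : ip (x - y) z = ip x z - ip y z := by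
  rw [sub_eq_add_neg, ip_add_left, ip_neg_left]; ring

theorem ip_add_right (x y z : Fin (m + 3) → F) : ip x (y + z) = ip x y + ip x z := by
  rw [ip_comm, ip_add_left, ip_comm y, ip_comm z]

theorem ip_smul_right (c : F) (x y : Fin (m + 3) → F) : ip x (c • y) = c * ip x y := by
  rw [ip_comm, ip_smul_left, ip_comm y]

theorem ip_neg_right (x y : Fin (m + 3) → F) : ip x (-y) = - ip x y := by
  rw [ip_comm, ip_neg_left, ip_comm y]

theorem ip_sub_right (x y z : Fin (m + 3) → F) : ip x (y - z) = ip x y - ip x z := by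
  rw [ip_comm, ip_sub_left, ip_comm y, ip_comm z]

/-- spatial inner product -/
def sp (x y : Fin (m + 3) → F) : F := ∑ i : Fin (m + 2), x i.succ * y i.succ

theorem ip_eq (x y : Fin (m + 3) → F) : ip x y = x 0 * y 0 - sp x y := rfl

theorem sp_sq_le (x y : Fin (m + 3) → F) : (sp x y) ^ 2 ≤ sp x x * sp y y := by
  unfold sp
  have := Finset.sum_mul_sq_le_sq_mul_sq Finset.univ (fun i : Fin (m + 2) => x i.succ)
    (fun i : Fin (m + 2) => y i.succ)
  simpa [pow_two] using this

theorem sp_nonneg (x : Fin (m + 3) → F) : 0 ≤ sp x x :=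
  Finset.sum_nonneg fun i _ => mul_self_nonneg _

theorem sp_eq_zero {x : Fin (m + 3) → F} (h : sp x x = 0) (i : Fin (m + 2)) : x i.succ = 0 := by
  have := (Finset.sum_eq_zero_iff_of_nonneg (fun i _ => mul_self_nonneg (x i.succ))).1 h i
    (Finset.mem_univ i)
  exact mul_self_eq_zero.1 this

/-- two null vectors with nonnegative product of time coordinates have nonnegative product -/
theorem null_nonneg {p q : Fin (m + 3) → F} (hp : ip p p = 0) (hq : ip q q = 0)
    (h : 0 ≤ p 0 * q 0) : 0 ≤ ip p q := by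
  rw [ip_eq] at *
  have h1 := sp_sq_le p q
  have h2 : sp p p = p 0 * p 0 := by linarith
  have h3 : sp q q = q 0 * q 0 := by linarith
  rw [h2, h3] at h1
  have h4 : (sp p q) ^ 2 ≤ (p 0 * q 0) ^ 2 := by nlinarith
  have := abs_le_of_sq_le_sq h4 h
  linarith [le_abs_self (sp p q)]

theorem null_nonpos {p q : Fin (m + 3) → F} (hp : ip p p = 0) (hq : ip q q = 0)
    (h : p 0 * q 0 ≤ 0) : ip p q ≤ 0 := by
  have h1 : ip (-p) (-p) = 0 := by rw [ip_neg_left, ip_neg_right]; simp [hp]
  have := null_nonneg h1 hq (by simp only [Pi.neg_apply]; linarith)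
  rw [ip_neg_left] at this
  linarith

/-- a point lightlike to `x, y, z` cannot exist if `x, y` are timelike and both are spacelike
to `z`. -/
theorem no_common {x y z v : Fin (m + 3) → F} (hxy : 0 < ip (x - y) (x - y))
    (hxz : ip (x - z) (x - z) < 0) (hyz : ip (y - z) (y - z) < 0)
    (hx : ip (v - x) (v - x) = 0) (hy : ip (v - y) (v - y) = 0) (hz : ip (v - z) (v - z) = 0) :
    False := by
  have e1 : ip (x - y) (x - y) = ip (v - x) (v - x) + ip (v - y) (v - y)
      - 2 * ip (v - x) (v - y) := by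
    have : x - y = (v - y) - (v - x) := by abel
    rw [this, ip_sub_left (v - y) (v - x), ip_sub_right (v - y) (v - y) (v - x),
      ip_sub_right (v - x) (v - y) (v - x), ip_comm (v - y) (v - x)]; ring
  have e2 : ip (x - z) (x - z) = ip (v - x) (v - x) + ip (v - z) (v - z)
      - 2 * ip (v - x) (v - z) := by
    have : x - z = (v - z) - (v - x) := by abel
    rw [this, ip_sub_left (v - z) (v - x), ip_sub_right (v - z) (v - z) (v - x),
      ip_sub_right (v - x) (v - z) (v - x), ip_comm (v - z) (v - x)]; ring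
  have e3 : ip (y - z) (y - z) = ip (v - y) (v - y) + ip (v - z) (v - z)
      - 2 * ip (v - y) (v - z) := by
    have : y - z = (v - z) - (v - y) := by abel
    rw [this, ip_sub_left (v - z) (v - y), ip_sub_right (v - z) (v - z) (v - y),
      ip_sub_right (v - y) (v - z) (v - y), ip_comm (v - z) (v - y)]; ring
  rw [e1, hx, hy] at hxy
  rw [e2, hx, hz] at hxz
  rw [e3, hy, hz] at hyz
  have a1 : (v - x) 0 * (v - y) 0 < 0 := by
    by_contra hcon
    have := null_nonneg hx hy (not_lt.1 hcon)
    linarith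
  have a2 : 0 < (v - x) 0 * (v - z) 0 := by
    by_contra hcon
    have := null_nonpos hx hz (not_lt.1 hcon)
    linarith
  have a3 : 0 < (v - y) 0 * (v - z) 0 := by
    by_contra hcon
    have := null_nonpos hy hz (not_lt.1 hcon)
    linarith
  have a4 : 0 < ((v - x) 0 * (v - z) 0) * ((v - y) 0 * (v - z) 0) := mul_pos a2 a3
  have a5 : ((v - x) 0 * (v - z) 0) * ((v - y) 0 * (v - z) 0)
      = ((v - x) 0 * (v - y) 0) * ((v - z) 0) ^ 2 := by ring
  rw [a5] at a4
  nlinarith [sq_nonneg ((v - z) 0)]

/-- unit spatial vector -/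
def es (i : Fin (m + 2)) : Fin (m + 3) → F := Pi.single i.succ 1

/-- unit time vector -/
def et : Fin (m + 3) → F := Pi.single 0 1

theorem sp_es (x : Fin (m + 3) → F) (i : Fin (m + 2)) : sp x (es i) = x i.succ := by
  unfold sp es
  rw [Finset.sum_eq_single i]
  · simp
  · intro j _ hj
    rw [Pi.single_eq_of_ne (by simpa using hj)]; simp
  · simp

theorem es_zero (i : Fin (m + 2)) : (es i : Fin (m + 3) → F) 0 = 0 := by
  unfold es; rw [Pi.single_eq_of_ne]; exact (Fin.succ_ne_zero i).symm

theorem es_succ_same (i : Fin (m + 2)) : (es i : Fin (m + 3) → F) i.succ = 1 := by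
  unfold es; simp

theorem ip_es (x : Fin (m + 3) → F) (i : Fin (m + 2)) : ip x (es i) = - x i.succ := by
  rw [ip_eq, sp_es, es_zero]; ring

theorem ip_et (x : Fin (m + 3) → F) : ip x et = x 0 := by
  unfold ip et
  simp

theorem et_zero : (et : Fin (m + 3) → F) 0 = 1 := by unfold et; simp

theorem et_succ (i : Fin (m + 2)) : (et : Fin (m + 3) → F) i.succ = 0 := by
  unfold et; rw [Pi.single_eq_of_ne]; exact Fin.succ_ne_zero i

/-- in a plane orthogonal complement of a spacelike vector there is a null vector -/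
theorem exists_null_orth (hF : ∀ a : F, 0 ≤ a → IsSquare a) {a : Fin (m + 3) → F}
    (ha : ip a a < 0) : ∃ d : Fin (m + 3) → F, d ≠ 0 ∧ ip d d = 0 ∧ ip d a = 0 := by
  have hs : 0 < sp a a := by
    rw [ip_eq] at ha
    nlinarith [mul_self_nonneg (a 0)]
  obtain ⟨j, hj⟩ : ∃ j : Fin (m + 2), a j.succ ≠ 0 := by
    by_contra hcon
    push Not at hcon
    have : sp a a = 0 := Finset.sum_eq_zero fun i _ => by rw [hcon i]; ring
    linarith
  obtain ⟨i, hij⟩ : ∃ i : Fin (m + 2), i ≠ j := exists_ne j
  -- f orthogonal to a, spatial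
  set f : Fin (m + 3) → F := a j.succ • es i - a i.succ • es j with hf
  have hf0 : f 0 = 0 := by simp [hf, es_zero]
  have hfa : ip f a = 0 := by
    rw [hf, ip_sub_left, ip_smul_left, ip_smul_left, ip_comm (es i), ip_comm (es j), ip_es, ip_es]
    ring
  have hesij : ip (es i) (es j : Fin (m + 3) → F) = 0 := by
    rw [ip_es]
    unfold es
    rw [Pi.single_eq_of_ne (by simpa using hij.symm)]; simp
  have hesii : ∀ k : Fin (m + 2), ip (es k) (es k : Fin (m + 3) → F) = -1 := by
    intro k; rw [ip_es, es_succ_same]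
  have hff : ip f f = - ((a j.succ) ^ 2 + (a i.succ) ^ 2) := by
    rw [hf]
    simp only [ip_sub_left, ip_sub_right, ip_smul_left, ip_smul_right, hesii, hesij,
      ip_comm (es j) (es i)]
    ring
  set N := (a j.succ) ^ 2 + (a i.succ) ^ 2 with hN
  have hNpos : 0 < N := by
    have : 0 < (a j.succ) ^ 2 := by positivity
    nlinarith [sq_nonneg (a i.succ)]
  obtain ⟨c, hc⟩ := hF ((sp a a - a 0 * a 0) / (sp a a * N)) (by
    apply div_nonneg _ (by positivity)
    rw [ip_eq] at ha; linarith)
  -- spatial part of a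
  set a' : Fin (m + 3) → F := a - a 0 • et with ha'
  have haet : ip a et = a 0 := ip_et a
  have hetet : ip et (et : Fin (m + 3) → F) = 1 := by rw [ip_et, et_zero]
  have ha'a' : ip a' a' = - sp a a := by
    rw [ha']
    simp only [ip_sub_left, ip_sub_right, ip_smul_left, ip_smul_right, haet, hetet,
      ip_comm et a]
    rw [ip_eq]; ring
  have ha'a : ip a' a = - sp a a := by
    rw [ha']
    simp only [ip_sub_left, ip_smul_left, haet, ip_comm et a]
    rw [ip_eq]; ring
  have ha'et : ip a' et = 0 := by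
    rw [ha']; simp only [ip_sub_left, ip_smul_left, haet, hetet]; ring
  have hfet : ip f et = 0 := by rw [ip_et, hf0]
  have hfa' : ip f a' = 0 := by
    rw [ha']; simp only [ip_sub_right, ip_smul_right, hfa, hfet]; ring
  refine ⟨et + (a 0 / sp a a) • a' + c • f, ?_, ?_, ?_⟩
  · intro h0
    have := congrFun h0 0
    have ha'0 : a' 0 = 0 := by simp [ha', et_zero]
    simp [et_zero, ha'0, hf0] at this
  · simp only [ip_add_left, ip_add_right, ip_smul_left, ip_smul_right, hetet, ha'et,
      ip_comm et a', ip_comm et f, hfet, hfa', ip_comm a' f, ha'a', hff]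
    have hcc : c * c * N = (sp a a - a 0 * a 0) / sp a a := by
      rw [← hc]; field_simp
    have : (a 0 / sp a a * (a 0 / sp a a * -sp a a)) = - (a 0 * a 0 / sp a a) := by
      field_simp
    have h2 : c * (c * -N) = -(c * c * N) := by ring
    have h3 : (1 : F) + a 0 / sp a a * 0 + c * 0 + a 0 / sp a a * (0 + a 0 / sp a a * -sp a a + c * 0) +
      c * (0 + a 0 / sp a a * 0 + c * -N) = 1 + (a 0 / sp a a * (a 0 / sp a a * -sp a a))
        + c * (c * -N) := by ring
    rw [h3, this, h2, hcc]
    field_simp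
    ring
  · simp only [ip_add_left, ip_smul_left, ip_comm et a, haet, ha'a, hfa]
    field_simp
    ring

/-- A timelike vector is not orthogonal to a nonzero null vector. -/
theorem null_not_orth {a d : Fin (m + 3) → F} (ha : 0 < ip a a) (hd : ip d d = 0) (hd0 : d ≠ 0) :
    ip d a ≠ 0 := by
  intro h
  rw [ip_eq] at ha hd h
  have h1 := sp_sq_le d a
  have h2 : sp d a = d 0 * a 0 := by linarith
  have h3 : sp d d = d 0 * d 0 := by linarith
  rw [h2, h3] at h1
  have h4 : d 0 * d 0 * (a 0 * a 0 - sp a a) ≤ 0 := by nlinarith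
  have h5 : d 0 = 0 := by
    by_contra hne
    have : 0 < d 0 * d 0 := mul_self_pos.2 hne
    nlinarith
  have h6 : sp d d = 0 := by rw [h3, h5]; ring
  apply hd0
  funext i
  refine Fin.cases h5 (fun j => sp_eq_zero h6 j) i

/-- lightlike relation in terms of `ip` -/
def lam (x y : Fin (m + 3) → F) : Prop := ip (x - y) (x - y) = 0 ∧ x ≠ y

theorem ip_sub_swap (x y : Fin (m + 3) → F) : ip (x - y) (x - y) = ip (y - x) (y - x) := by
  have : x - y = -(y - x) := by abel
  rw [this, ip_neg_left, ip_neg_right]; ring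

theorem lam_symm {x y : Fin (m + 3) → F} (h : lam x y) : lam y x :=
  ⟨by rw [← ip_sub_swap]; exact h.1, h.2.symm⟩

/-- if `x, u` are lightlike then any point lightlike to both is on the line through them -/
theorem on_line {x u v : Fin (m + 3) → F} (hux : lam u x) (hvx : lam v x)
    (hvu : lam v u) : ∃ s : F, v - x = s • (u - x) := by
  set d := u - x with hd
  set w := v - x with hw
  have hd0 : ip d d = 0 := hux.1
  have hw0 : ip w w = 0 := hvx.1
  have hwd : ip (w - d) (w - d) = 0 := by
    have : w - d = v - u := by rw [hw, hd]; abel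
    rw [this]; exact hvu.1
  have hwd' : ip w d = 0 := by
    rw [ip_sub_left w d (w - d), ip_sub_right w w d, ip_sub_right d w d, ip_comm d w, hd0,
      hw0] at hwd
    linarith
  have hdne : d ≠ 0 := sub_ne_zero.2 hux.2
  -- d 0 ≠ 0
  have hd00 : d 0 ≠ 0 := by
    intro h0
    apply hdne
    rw [ip_eq, h0] at hd0
    have : sp d d = 0 := by linarith
    funext i
    exact Fin.cases h0 (fun j => sp_eq_zero this j) i
  refine ⟨w 0 / d 0, ?_⟩
  have key : sp (w - (w 0 / d 0) • d) (w - (w 0 / d 0) • d) = 0 := by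
    have h1 : ip (w - (w 0 / d 0) • d) (w - (w 0 / d 0) • d) = 0 := by
      simp only [ip_sub_left, ip_sub_right, ip_smul_left, ip_smul_right, ip_comm d w, hd0, hw0,
        hwd']
      ring
    rw [ip_eq] at h1
    have h2 : (w - (w 0 / d 0) • d) 0 = 0 := by
      simp only [Pi.sub_apply, Pi.smul_apply, smul_eq_mul]
      field_simp
      ring
    rw [h2] at h1
    linarith
  have h3 : w - (w 0 / d 0) • d = 0 := by
    funext i
    refine Fin.cases ?_ (fun j => sp_eq_zero key j) i
    simp only [Pi.sub_apply, Pi.smul_apply, smul_eq_mul]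
    field_simp
    simp
  exact sub_eq_zero.1 h3

/-- `σ` from `λ`: spacelike points have a witness. -/
theorem sigma_mp (hF : ∀ a : F, 0 ≤ a → IsSquare a) {x y : Fin (m + 3) → F}
    (h : ip (x - y) (x - y) < 0) :
    ∃ u, lam u x ∧ ¬ lam u y ∧ ∀ v, ¬ (lam v u ∧ lam v x ∧ lam v y) := by
  obtain ⟨d, hd0, hdd, hda⟩ := exists_null_orth hF h
  have key : ∀ s : F, ip (x + s • d - y) (x + s • d - y) = ip (x - y) (x - y) := by
    intro s
    have : x + s • d - y = (x - y) + s • d := by abel
    rw [this, ip_add_left, ip_add_right, ip_add_right, ip_smul_left, ip_smul_right,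
      ip_smul_left, ip_smul_right, ip_comm (x - y) d, hdd, hda]
    ring
  refine ⟨x + d, ⟨?_, ?_⟩, ?_, ?_⟩
  · simpa using hdd
  · simpa using hd0
  · intro hcon
    have := key 1
    rw [one_smul] at this
    have h2 := hcon.1
    rw [this] at h2
    linarith
  · rintro v ⟨h1, h2, h3⟩
    obtain ⟨s, hs⟩ := on_line (x := x) (u := x + d) (v := v)
      ⟨by simpa using hdd, by simpa using hd0⟩ h2 h1
    have hv : v = x + s • d := by
      have : x + d - x = d := by abel
      rw [this] at hs
      rw [← hs]; abel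
    have h4 := h3.1
    rw [hv, key s] at h4
    linarith

theorem sigma_mpr {x y u : Fin (m + 3) → F} (hne : x ≠ y) (hl : ¬ lam x y)
    (hux : lam u x) (huy : ¬ lam u y) (hv : ∀ v, ¬ (lam v u ∧ lam v x ∧ lam v y)) :
    ip (x - y) (x - y) < 0 := by
  by_contra hcon
  have hpos : 0 < ip (x - y) (x - y) := by
    rcases lt_or_eq_of_le (not_lt.1 hcon) with h | h
    · exact h
    · exact absurd ⟨h.symm, hne⟩ hl
  set d := u - x with hd
  have hd0 : d ≠ 0 := sub_ne_zero.2 hux.2
  have hdd : ip d d = 0 := hux.1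
  have hg := null_not_orth hpos hdd hd0
  set g := ip d (x - y) with hgdef
  set s := - ip (x - y) (x - y) / (2 * g) with hs
  have hs0 : s ≠ 0 := by
    rw [hs]; exact div_ne_zero (neg_ne_zero.2 hpos.ne') (mul_ne_zero two_ne_zero hg)
  have e1 : ip (x + s • d - y) (x + s • d - y) = 0 := by
    have : x + s • d - y = (x - y) + s • d := by abel
    rw [this, ip_add_left, ip_add_right, ip_add_right, ip_smul_left, ip_smul_right,
      ip_smul_left, ip_smul_right, ip_comm (x - y) d, hdd, ← hgdef, hs]
    field_simp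
    ring
  have e2 : x + s • d ≠ y := by
    intro h
    have : x - y = -(s • d) := by rw [← h]; abel
    rw [this, ip_neg_left, ip_neg_right, ip_smul_left, ip_smul_right, hdd] at hpos
    simp at hpos
  have e3 : x + s • d ≠ x := by
    intro h
    have : s • d = 0 := by simpa using h
    rcases smul_eq_zero.1 this with h | h
    · exact hs0 h
    · exact hd0 h
  have e4 : x + s • d ≠ u := by
    intro h
    exact huy ⟨by rw [← h]; exact e1, by rw [← h]; exact e2⟩
  refine hv (x + s • d) ⟨⟨?_, e4⟩, ⟨?_, e3⟩, ⟨e1, e2⟩⟩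
  · have : x + s • d - u = (s - 1) • d := by
      have hu : u = x + d := by rw [hd]; abel
      rw [sub_smul, one_smul]
      nth_rewrite 1 [hu]
      abel
    rw [this, ip_smul_left, ip_smul_right, hdd]; ring
  · have : x + s • d - x = s • d := by abel
    rw [this, ip_smul_left, ip_smul_right, hdd]; ring

/-- Gram determinant of three vectors -/
def gram (a b e : Fin (m + 3) → F) : F :=
  (ip a a * ip b b - ip a b ^ 2) * ip e e - ip b b * ip a e ^ 2 - ip a a * ip b e ^ 2
    + 2 * ip a b * ip a e * ip b e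

/-- a quadratic with positive discriminant has a root -/
theorem quad_root (hF : ∀ a : F, 0 ≤ a → IsSquare a) {D L c : F} (h : 0 < L ^ 2 - 4 * D * c) :
    ∃ g : F, D * g ^ 2 + L * g + c = 0 := by
  by_cases hD : D = 0
  · subst hD
    have hL : L ≠ 0 := by
      rintro rfl
      simp at h
    refine ⟨-c / L, ?_⟩
    field_simp
    ring
  · obtain ⟨r, hr⟩ := hF _ h.le
    refine ⟨(-L + r) / (2 * D), ?_⟩
    have : r ^ 2 = L ^ 2 - 4 * D * c := by rw [hr]; ring
    field_simp
    linear_combination this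

/-- If some `e` has positive Gram determinant with `a, b`, there is a null vector with
prescribed products. -/
theorem exists_common_of_gram (hF : ∀ a : F, 0 ≤ a → IsSquare a) {a b e : Fin (m + 3) → F}
    (ha : ip a a < 0) (hb : ip b b < 0) (hab : ip (a - b) (a - b) < 0) (hG : 0 < gram a b e) :
    ∃ w : Fin (m + 3) → F, ip w w = 0 ∧ 2 * ip w a = ip a a ∧ 2 * ip w b = ip b b := by
  set A := ip a a with hA
  set B := ip b b with hB
  set C := ip a b with hC
  set E := ip a e with hE
  set K := ip b e with hK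
  set H := ip e e with hH
  set G := gram a b e with hGd
  have hGeq : G = (A * B - C ^ 2) * H - B * E ^ 2 - A * K ^ 2 + 2 * C * E * K := rfl
  have hab' : A + B - 2 * C < 0 := by
    rw [ip_sub_left, ip_sub_right, ip_sub_right, ip_comm b a, ← hA, ← hB, ← hC] at hab
    linarith
  have hdisc : 0 < (A * (C * K - B * E) + B * (C * E - A * K)) ^ 2 - 4 * (A * B - C ^ 2) *
      ((A ^ 2 * (B * H - K ^ 2) + 2 * A * B * (E * K - C * H) + B ^ 2 * (A * H - E ^ 2)) / 4) := by
    have : (A * (C * K - B * E) + B * (C * E - A * K)) ^ 2 - 4 * (A * B - C ^ 2) *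
      ((A ^ 2 * (B * H - K ^ 2) + 2 * A * B * (E * K - C * H) + B ^ 2 * (A * H - E ^ 2)) / 4)
      = (A * B) * (-(A + B - 2 * C)) * G := by
      rw [hGeq]; ring
    rw [this]
    have h1 : 0 < A * B := mul_pos_of_neg_of_neg ha hb
    have h2 : 0 < -(A + B - 2 * C) := by linarith
    positivity
  obtain ⟨g, hg⟩ := quad_root hF hdisc
  have hw0 : ip ((A / 2) • ((B * H - K ^ 2) • a + (E * K - C * H) • b + (C * K - B * E) • e)
    + (B / 2) • ((E * K - C * H) • a + (A * H - E ^ 2) • b + (C * E - A * K) • e)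
    + g • ((C * K - B * E) • a + (C * E - A * K) • b + (A * B - C ^ 2) • e))
    ((A / 2) • ((B * H - K ^ 2) • a + (E * K - C * H) • b + (C * K - B * E) • e)
    + (B / 2) • ((E * K - C * H) • a + (A * H - E ^ 2) • b + (C * E - A * K) • e)
    + g • ((C * K - B * E) • a + (C * E - A * K) • b + (A * B - C ^ 2) • e)) = 0 := by
    simp only [ip_smul_left, ip_smul_right, ip_add_left, ip_add_right, ← hA, ← hB, ← hC, ← hE,
      ← hK, ← hH, ip_comm b a, ip_comm e a, ip_comm e b]
    have : G * ((A * B - C ^ 2) * g ^ 2 + (A * (C * K - B * E) + B * (C * E - A * K)) * g +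
      (A ^ 2 * (B * H - K ^ 2) + 2 * A * B * (E * K - C * H) + B ^ 2 * (A * H - E ^ 2)) / 4) = 0 := by
      rw [hg]; ring
    rw [hGeq] at this
    linear_combination this
  refine ⟨(1 / G) • ((A / 2) • ((B * H - K ^ 2) • a + (E * K - C * H) • b + (C * K - B * E) • e)
    + (B / 2) • ((E * K - C * H) • a + (A * H - E ^ 2) • b + (C * E - A * K) • e)
    + g • ((C * K - B * E) • a + (C * E - A * K) • b + (A * B - C ^ 2) • e)), ?_, ?_, ?_⟩
  · rw [ip_smul_left (1 / G), ip_smul_right (1 / G), hw0]; ring
  · simp only [ip_smul_left, ip_add_left, ← hA, ← hB, ← hC, ← hE,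
      ← hK, ← hH, ip_comm b a, ip_comm e a, ip_comm e b]
    have hG0 : G ≠ 0 := hG.ne'
    field_simp
    rw [hGeq]; ring
  · simp only [ip_smul_left, ip_add_left, ← hA, ← hB, ← hC, ← hE,
      ← hK, ← hH, ip_comm b a, ip_comm e a, ip_comm e b]
    have hG0 : G ≠ 0 := hG.ne'
    field_simp
    rw [hGeq]; ring

/-- linearly independent pairs have a vector with positive Gram determinant -/
theorem exists_gram {a b : Fin (m + 3) → F} (ha : ip a a < 0) (hind : ∀ t : F, b ≠ t • a) :
    ∃ e, 0 < gram a b e := by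
  by_contra hcon
  push Not at hcon
  have hs : 0 < sp a a := by
    rw [ip_eq] at ha
    nlinarith [mul_self_nonneg (a 0)]
  -- time vector
  have h0 := hcon et
  have e0 : gram a b et = sp a a * sp b b - (sp a b) ^ 2 := by
    unfold gram
    have h1 : ip (et : Fin (m + 3) → F) et = 1 := by rw [ip_et, et_zero]
    rw [h1, ip_et, ip_et, ip_eq a a, ip_eq b b, ip_eq a b]
    ring
  have h1 : sp a a * sp b b - (sp a b) ^ 2 = 0 := by
    have := sp_sq_le a b
    rw [e0] at h0
    linarith
  set t := sp a b / sp a a with ht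
  have hsub : ∀ x y z : Fin (m + 3) → F, sp (x - y) z = sp x z - sp y z := by
    intro x y z; unfold sp; simp only [Pi.sub_apply, sub_mul, Finset.sum_sub_distrib]
  have hsm : ∀ (c : F) (x z : Fin (m + 3) → F), sp (c • x) z = c * sp x z := by
    intro c x z; unfold sp; simp only [Pi.smul_apply, smul_eq_mul, mul_assoc, Finset.mul_sum]
  have hcm : ∀ x y : Fin (m + 3) → F, sp x y = sp y x := by
    intro x y; unfold sp; exact Finset.sum_congr rfl fun i _ => mul_comm _ _
  have h2 : sp (b - t • a) (b - t • a) = 0 := by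
    rw [hsub, hsm, hcm b, hcm a, hsub, hsub, hsm, hsm, hcm b a, ht]
    field_simp
    linarith
  obtain ⟨j, hj⟩ : ∃ j : Fin (m + 2), a j.succ ≠ 0 := by
    by_contra hcon
    push Not at hcon
    have : sp a a = 0 := Finset.sum_eq_zero fun i _ => by rw [hcon i]; ring
    linarith
  obtain ⟨i, hij⟩ : ∃ i : Fin (m + 2), i ≠ j := exists_ne j
  set c : Fin (m + 3) → F := b - t • a with hc
  have hcs : ∀ k : Fin (m + 2), c k.succ = 0 := fun k => sp_eq_zero h2 k
  have hb : b = t • a + c := by rw [hc]; abel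
  have hc0 : c 0 ≠ 0 := by
    intro h
    apply hind t
    have : c = 0 := by funext k; exact Fin.cases h (fun k => hcs k) k
    rw [hb, this, add_zero]
  have hca : ∀ x : Fin (m + 3) → F, ip x c = x 0 * c 0 := by
    intro x
    rw [ip_eq]
    have : sp x c = 0 := Finset.sum_eq_zero fun k _ => by rw [hcs k]; ring
    rw [this]; ring
  have h3 := hcon (es i)
  have e3 : gram a b (es i) = (c 0) ^ 2 * (sp a a - (a i.succ) ^ 2) := by
    unfold gram
    have hE : ip a (es i) = - a i.succ := ip_es a i
    have hH : ip (es i) (es i : Fin (m + 3) → F) = -1 := by rw [ip_es, es_succ_same]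
    have hK : ip b (es i) = - (t * a i.succ) := by
      rw [ip_es, hb]; simp [hcs]
    have hB : ip b b = t ^ 2 * ip a a + 2 * t * (a 0 * c 0) + (c 0) ^ 2 := by
      rw [hb]
      simp only [ip_add_left, ip_add_right, ip_smul_left, ip_smul_right, hca, ip_comm c a,
        ip_comm c (t • a + c), Pi.add_apply, Pi.smul_apply, smul_eq_mul]
      ring
    have hC : ip a b = t * ip a a + a 0 * c 0 := by
      rw [hb]
      simp only [ip_add_right, ip_smul_right, hca]
    rw [hE, hH, hK, hB, hC, ip_eq a a]
    ring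
  rw [e3] at h3
  have h4 : (a i.succ) ^ 2 < sp a a := by
    have : (a i.succ) ^ 2 + (a j.succ) ^ 2 ≤ sp a a := by
      unfold sp
      have := Finset.sum_le_sum_of_subset_of_nonneg (s := {i, j}) (t := Finset.univ)
        (f := fun k : Fin (m + 2) => a k.succ * a k.succ) (Finset.subset_univ _)
        (fun k _ _ => mul_self_nonneg _)
      rw [Finset.sum_pair hij] at this
      linarith
    have h5 : 0 < (a j.succ) ^ 2 := by positivity
    linarith
  have h5 : 0 < (c 0) ^ 2 := by positivity
  nlinarith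

/-- three pairwise spacelike non-collinear points have a common lightlike point -/
theorem exists_common (hF : ∀ a : F, 0 ≤ a → IsSquare a) {x y z : Fin (m + 3) → F}
    (hxy : ip (x - y) (x - y) < 0) (hxz : ip (x - z) (x - z) < 0) (hyz : ip (y - z) (y - z) < 0)
    (hno : ∀ v, ¬ (lam v x ∧ lam v y ∧ lam v z)) : ∃ t : F, z - x = t • (y - x) := by
  by_contra hcon
  push Not at hcon
  have ha : ip (y - x) (y - x) < 0 := by rw [ip_sub_swap]; exact hxy
  have hb : ip (z - x) (z - x) < 0 := by rw [ip_sub_swap]; exact hxz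
  have hab : ip ((y - x) - (z - x)) ((y - x) - (z - x)) < 0 := by
    have : (y - x) - (z - x) = y - z := by abel
    rw [this]; exact hyz
  obtain ⟨e, he⟩ := exists_gram ha hcon
  obtain ⟨w, h1, h2, h3⟩ := exists_common_of_gram hF ha hb hab he
  have e1 : ip (x + w - x) (x + w - x) = 0 := by simpa using h1
  have e2 : ip (x + w - y) (x + w - y) = 0 := by
    have : x + w - y = w - (y - x) := by abel
    rw [this, ip_sub_left w, ip_sub_right w w, ip_sub_right (y - x) w, ip_comm (y - x) w]
    linarith
  have e3 : ip (x + w - z) (x + w - z) = 0 := by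
    have : x + w - z = w - (z - x) := by abel
    rw [this, ip_sub_left w, ip_sub_right w w, ip_sub_right (z - x) w, ip_comm (z - x) w]
    linarith
  refine hno (x + w) ⟨⟨e1, ?_⟩, ⟨e2, ?_⟩, ⟨e3, ?_⟩⟩
  · intro h; rw [h] at e2; linarith
  · intro h; rw [h, ip_sub_swap] at e1; linarith
  · intro h; rw [h, ip_sub_swap] at e1; linarith

/-- The witnesses for timelike related points. -/
theorem exists_witness {x y : Fin (m + 3) → F} (h : 0 < ip (x - y) (x - y)) :
    ∃ z₁ z₂ : Fin (m + 3) → F, lam z₁ z₂ ∧ ip (x - z₁) (x - z₁) < 0 ∧ ip (y - z₁) (y - z₁) < 0 ∧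
      ip (x - z₂) (x - z₂) < 0 ∧ ip (y - z₂) (y - z₂) < 0 := by
  set d := x - y with hd
  set R : F := ip d d + 2 * |d 0| + 2 * |d (Fin.succ 0)| + 2 with hR
  have hR1 : 0 < R := by positivity
  have hab0 := abs_nonneg (d 0)
  have hab1 := abs_nonneg (d (Fin.succ 0))
  have l0 := neg_abs_le (d 0)
  have l0' := le_abs_self (d 0)
  have l1 := neg_abs_le (d (Fin.succ 0))
  have l1' := le_abs_self (d (Fin.succ 0))
  have hee : ip (es 0) (es 0 : Fin (m + 3) → F) = -1 := by rw [ip_es, es_succ_same]
  have htt : ip (et : Fin (m + 3) → F) et = 1 := by rw [ip_et, et_zero]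
  have het : ip (es 0) (et : Fin (m + 3) → F) = 0 := by rw [ip_et, es_zero]
  clear_value R
  refine ⟨x - R • es 0, x - ((R + 1) • es 0 + et), ⟨?_, ?_⟩, ?_, ?_, ?_, ?_⟩
  · have : x - R • es 0 - (x - ((R + 1) • es 0 + et)) = (es 0 : Fin (m + 3) → F) + et := by
      rw [add_smul, one_smul]; abel
    rw [this]
    simp only [ip_add_left, ip_add_right, hee, htt, het, ip_comm et (es 0)]
    ring
  · intro hcon
    have := congrFun hcon 0
    simp [es_zero, et_zero] at this
    linarith
  · have : x - (x - R • es 0) = R • (es 0 : Fin (m + 3) → F) := by abel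
    rw [this]
    simp only [ip_smul_left, ip_smul_right, hee]
    nlinarith
  · have : y - (x - R • es 0) = R • (es 0 : Fin (m + 3) → F) - d := by rw [hd]; abel
    rw [this]
    simp only [ip_sub_left, ip_sub_right, ip_smul_left, ip_smul_right, hee, ip_comm (es 0) d,
      ip_es d 0]
    nlinarith [mul_nonneg hR1.le hab1, mul_nonneg hR1.le hab0, mul_pos hR1 h]
  · have : x - (x - ((R + 1) • es 0 + et)) = (R + 1) • (es 0 : Fin (m + 3) → F) + et := by abel
    rw [this]
    simp only [ip_add_left, ip_add_right, ip_smul_left, ip_smul_right, hee, htt, het,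
      ip_comm et (es 0)]
    nlinarith
  · have : y - (x - ((R + 1) • es 0 + et)) = ((R + 1) • (es 0 : Fin (m + 3) → F) + et) - d := by
      rw [hd]; abel
    rw [this]
    simp only [ip_sub_left, ip_sub_right, ip_add_left, ip_add_right, ip_smul_left, ip_smul_right,
      hee, htt, het, ip_comm et (es 0), ip_comm (es 0) d, ip_comm et d, ip_es d 0, ip_et d]
    nlinarith [mul_nonneg hR1.le hab1, mul_nonneg hR1.le hab0, mul_pos hR1 h]

end Pool.Agent.V11251.Light
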