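import Mathlib

/-!
# A generic back-and-forth construction
-/

set_option autoImplicit false
set_option linter.unusedVariables false
set_option linter.unusedSectionVars false

namespace Pool.Agent.V11251

theorem back_forth {V W : Type} [Countable V] [Countable W] [DecidableEq V] [DecidableEq W]
    (P : Finset (V × W) → Prop)
    (hl : ∀ f, P f → ∀ a, ∃ b, P (insert (a, b) f))
    (hr : ∀ f, P f → ∀ b, ∃ a, P (insert (a, b) f))
    (hinj : ∀ f, P f → ∀ p ∈ f, ∀ q ∈ f, p.1 = q.1 ↔ p.2 = q.2)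
    (f₀ : Finset (V × W)) (h₀ : P f₀) :
    ∃ e : V ≃ W, (∀ p ∈ f₀, e p.1 = p.2) ∧
      ∀ s : Finset V, ∃ f, P f ∧ ∀ a ∈ s, (a, e a) ∈ f := by
  classical
  obtain ⟨ν, hν⟩ := Countable.exists_injective_nat V
  obtain ⟨μ, hμ⟩ := Countable.exists_injective_nat W
  have step : ∀ (f : {f // P f}) (n : ℕ), ∃ f' : {f // P f}, f.1 ⊆ f'.1 ∧
      (∀ a, ν a = n → ∃ b, (a, b) ∈ f'.1) ∧ (∀ b, μ b = n → ∃ a, (a, b) ∈ f'.1) := by
    rintro ⟨f, hf⟩ n
    obtain ⟨f₁, h1, h2, h3⟩ : ∃ f₁, P f₁ ∧ f ⊆ f₁ ∧ (∀ a, ν a = n → ∃ b, (a, b) ∈ f₁) := by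
      by_cases h : ∃ a, ν a = n
      · obtain ⟨a, ha⟩ := h
        obtain ⟨b, hb⟩ := hl f hf a
        refine ⟨_, hb, Finset.subset_insert _ _, fun a' ha' => ⟨b, ?_⟩⟩
        rw [hν (ha'.trans ha.symm)]
        exact Finset.mem_insert_self _ _
      · exact ⟨f, hf, Finset.Subset.refl _, fun a ha => absurd ⟨a, ha⟩ h⟩
    by_cases h : ∃ b, μ b = n
    · obtain ⟨b, hb⟩ := h
      obtain ⟨a, ha⟩ := hr f₁ h1 b
      refine ⟨⟨_, ha⟩, h2.trans (Finset.subset_insert _ _), fun a' ha' => ?_,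
        fun b' hb' => ⟨a, ?_⟩⟩
      · obtain ⟨b', hb'⟩ := h3 a' ha'
        exact ⟨b', Finset.mem_insert_of_mem hb'⟩
      · rw [hμ (hb'.trans hb.symm)]
        exact Finset.mem_insert_self _ _
    · exact ⟨⟨f₁, h1⟩, h2, h3, fun b hb => absurd ⟨b, hb⟩ h⟩
  choose F hF1 hF2 hF3 using step
  let S : ℕ → {f // P f} := fun n => Nat.rec ⟨f₀, h₀⟩ (fun n f => F f n) n
  have hS : ∀ n, S (n + 1) = F (S n) n := fun n => rfl
  have hmono : Monotone fun n => (S n).1 := monotone_nat_of_le_succ fun n => by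
    show (S n).1 ⊆ (S (n + 1)).1
    rw [hS]; exact hF1 _ _
  have hup : ∀ {n m : ℕ} {p : V × W}, p ∈ (S n).1 → p ∈ (S (max n m)).1 :=
    fun hp => hmono (le_max_left _ _) hp
  have huniq : ∀ p q : V × W, (∃ n, p ∈ (S n).1) → (∃ n, q ∈ (S n).1) →
      (p.1 = q.1 ↔ p.2 = q.2) := by
    rintro p q ⟨n, hn⟩ ⟨m, hm⟩
    exact hinj _ (S (max n m)).2 p (hup hn) q (by rw [max_comm]; exact hup hm)
  have htot : ∀ a, ∃ b, ∃ n, (a, b) ∈ (S n).1 := by
    intro a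
    obtain ⟨b, hb⟩ := hF2 (S (ν a)) (ν a) a rfl
    exact ⟨b, ν a + 1, hb⟩
  choose e he using htot
  have hbij : Function.Bijective e := by
    constructor
    · intro a a' haa
      exact (huniq _ _ (he a) (he a')).2 haa
    · intro b
      obtain ⟨a, ha⟩ := hF3 (S (μ b)) (μ b) b rfl
      exact ⟨a, (huniq _ _ (he a) ⟨μ b + 1, ha⟩).1 rfl⟩
  refine ⟨Equiv.ofBijective e hbij, ?_, ?_⟩
  · intro p hp
    exact (huniq (p.1, e p.1) p (he p.1) ⟨0, hp⟩).1 rfl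
  · intro s
    choose N hN using he
    refine ⟨_, (S (s.sup N)).2, fun a ha => ?_⟩
    exact hmono (Finset.le_sup ha) (hN a)

end Pool.Agent.V11251
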