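import Mathlib

/-!
# A small calculus of definable predicates
-/

set_option autoImplicit false
set_option linter.unusedVariables false
set_option linter.unusedSectionVars false

open FirstOrder

namespace Pool.Agent.V11251

universe u v w

variable {L : FirstOrder.Language.{u, v}} {M : Type w} [L.Structure M] (A : Set M)

variable (L) in
/-- `P` is definable with parameters from `A`. -/
def DP {α : Type} (P : (α → M) → Prop) : Prop :=
  ∃ φ : L.Formula (A ⊕ α), ∀ v : α → M, φ.Realize (Sum.elim (fun a : A => (a : M)) v) ↔ P v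

variable (L) in
/-- `g` is given by a term with parameters from `A`. -/
def TF {α : Type} (g : (α → M) → M) : Prop :=
  ∃ t : L.Term (A ⊕ α), ∀ v : α → M, t.realize (Sum.elim (fun a : A => (a : M)) v) = g v

variable {A}

theorem DP.definable {α : Type} {P : (α → M) → Prop} (h : DP L A P) :
    A.Definable L {v | P v} := by
  obtain ⟨φ, hφ⟩ := h
  rw [Set.definable_iff_exists_formula_sum]
  refine ⟨φ, ?_⟩
  ext v
  exact (hφ v).symm

theorem DP.of_definable {α : Type} {P : (α → M) → Prop} (h : A.Definable L {v | P v}) :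
    DP L A P := by
  rw [Set.definable_iff_exists_formula_sum] at h
  obtain ⟨φ, hφ⟩ := h
  refine ⟨φ, fun v => ?_⟩
  have : v ∈ {v | P v} ↔ φ.Realize (Sum.elim (fun a : A => (a : M)) v) := by
    rw [hφ]; rfl
  exact this.symm

section TF

variable {α β : Type}

theorem TF.var (i : α) : TF L A (fun w : α → M => w i) :=
  ⟨Language.Term.var (Sum.inr i), fun w => rfl⟩

theorem TF.const {c : M} (hc : c ∈ A) : TF L A (fun _ : α → M => c) :=
  ⟨Language.Term.var (Sum.inl ⟨c, hc⟩), fun w => rfl⟩

theorem TF.fun₂ (f : L.Functions 2) (F : M → M → M)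
    (hF : ∀ v : Fin 2 → M, Language.Structure.funMap f v = F (v 0) (v 1))
    {g h : (α → M) → M} (hg : TF L A g) (hh : TF L A h) : TF L A (fun w => F (g w) (h w)) := by
  obtain ⟨s, hs⟩ := hg
  obtain ⟨t, ht⟩ := hh
  refine ⟨f.apply₂ s t, fun w => ?_⟩
  rw [Language.Term.realize_functions_apply₂, hs w, ht w, hF]
  rfl

theorem TF.fun₁ (f : L.Functions 1) (F : M → M)
    (hF : ∀ v : Fin 1 → M, Language.Structure.funMap f v = F (v 0))
    {g : (α → M) → M} (hg : TF L A g) : TF L A (fun w => F (g w)) := by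
  obtain ⟨s, hs⟩ := hg
  refine ⟨f.apply₁ s, fun w => ?_⟩
  rw [Language.Term.realize_functions_apply₁, hs w, hF]
  rfl

theorem TF.fun₀ (f : L.Constants) (c : M)
    (hc : ∀ v : Fin 0 → M, Language.Structure.funMap f v = c) :
    TF L A (fun _ : α → M => c) :=
  ⟨f.term, fun w => by rw [Language.Term.realize_constants]; exact hc _⟩

end TF

section DP

variable {α β : Type}

theorem DP.congr {P Q : (α → M) → Prop} (h : DP L A P) (hPQ : ∀ v, P v ↔ Q v) : DP L A Q := by
  obtain ⟨φ, hφ⟩ := h
  exact ⟨φ, fun v => (hφ v).trans (hPQ v)⟩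

theorem DP.true : DP L A (fun _ : α → M => True) :=
  ⟨⊤, fun v => by simp [Language.Formula.Realize]⟩

theorem DP.false : DP L A (fun _ : α → M => False) :=
  ⟨⊥, fun v => by simp [Language.Formula.Realize]⟩

theorem DP.not {P : (α → M) → Prop} (h : DP L A P) : DP L A (fun v => ¬ P v) := by
  obtain ⟨φ, hφ⟩ := h
  exact ⟨φ.not, fun v => by rw [Language.Formula.realize_not, hφ]⟩

theorem DP.and {P Q : (α → M) → Prop} (hP : DP L A P) (hQ : DP L A Q) :
    DP L A (fun v => P v ∧ Q v) := by
  obtain ⟨φ, hφ⟩ := hP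
  obtain ⟨ψ, hψ⟩ := hQ
  exact ⟨φ ⊓ ψ, fun v => by rw [Language.Formula.realize_inf, hφ, hψ]⟩

theorem DP.or {P Q : (α → M) → Prop} (hP : DP L A P) (hQ : DP L A Q) :
    DP L A (fun v => P v ∨ Q v) := by
  obtain ⟨φ, hφ⟩ := hP
  obtain ⟨ψ, hψ⟩ := hQ
  exact ⟨φ ⊔ ψ, fun v => by rw [Language.Formula.realize_sup, hφ, hψ]⟩

theorem DP.imp {P Q : (α → M) → Prop} (hP : DP L A P) (hQ : DP L A Q) :
    DP L A (fun v => P v → Q v) := by
  obtain ⟨φ, hφ⟩ := hP
  obtain ⟨ψ, hψ⟩ := hQ
  exact ⟨φ.imp ψ, fun v => by rw [Language.Formula.realize_imp, hφ, hψ]⟩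

theorem DP.iff {P Q : (α → M) → Prop} (hP : DP L A P) (hQ : DP L A Q) :
    DP L A (fun v => P v ↔ Q v) :=
  ((hP.imp hQ).and (hQ.imp hP)).congr fun v => (iff_def).symm

theorem DP.eq {g h : (α → M) → M} (hg : TF L A g) (hh : TF L A h) :
    DP L A (fun v => g v = h v) := by
  obtain ⟨s, hs⟩ := hg
  obtain ⟨t, ht⟩ := hh
  exact ⟨s.equal t, fun v => by rw [Language.Formula.realize_equal, hs, ht]⟩

theorem DP.ne {g h : (α → M) → M} (hg : TF L A g) (hh : TF L A h) :
    DP L A (fun v => g v ≠ h v) := (DP.eq hg hh).not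

theorem DP.ex {P : (α → M) → M → Prop}
    (h : DP L A (fun w : Option α → M => P (fun a => w (some a)) (w none))) :
    DP L A (fun v => ∃ x, P v x) := by
  obtain ⟨φ, hφ⟩ := h
  let g : A ⊕ Option α → (A ⊕ α) ⊕ Fin 1 :=
    Sum.elim (fun a => Sum.inl (Sum.inl a)) (fun o => o.elim (Sum.inr 0) (fun a => Sum.inl (Sum.inr a)))
  refine ⟨(Language.BoundedFormula.relabel g φ).ex, fun v => ?_⟩
  unfold Language.Formula.Realize
  rw [Language.BoundedFormula.realize_ex]
  apply exists_congr
  intro x
  rw [Language.BoundedFormula.realize_relabel]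
  have h1 := hφ (fun o => o.elim x v)
  unfold Language.Formula.Realize at h1
  simp only [Option.elim] at h1
  rw [← h1]
  have e1 : (Sum.elim (Sum.elim (fun a : A => (a : M)) v)
      ((Fin.snoc default x : Fin 1 → M) ∘ Fin.castAdd 0) ∘ g) =
      Sum.elim (fun a : A => (a : M)) (fun o : Option α => o.elim x v) := by
    funext z
    rcases z with a | (_ | a)
    · rfl
    · simp [g, Fin.snoc]
    · rfl
  rw [e1]
  exact iff_of_eq (congrArg _ (Subsingleton.elim _ _))

theorem DP.all {P : (α → M) → M → Prop}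
    (h : DP L A (fun w : Option α → M => P (fun a => w (some a)) (w none))) :
    DP L A (fun v => ∀ x, P v x) := by
  have := (DP.ex (P := fun v x => ¬ P v x) h.not).not
  exact this.congr fun v => by push Not; rfl

/-- substitution of terms -/
theorem DP.subst {P : (β → M) → Prop} (h : DP L A P) {g : β → (α → M) → M}
    (hg : ∀ b, TF L A (g b)) : DP L A (fun v : α → M => P (fun b => g b v)) := by
  obtain ⟨φ, hφ⟩ := h
  choose t ht using hg
  refine ⟨Language.BoundedFormula.subst φ
    (Sum.elim (fun a => Language.Term.var (Sum.inl a)) t), fun v => ?_⟩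
  unfold Language.Formula.Realize
  rw [Language.BoundedFormula.realize_subst]
  have h1 := hφ (fun b => g b v)
  unfold Language.Formula.Realize at h1
  refine Iff.trans ?_ h1
  have : (fun a => Language.Term.realize (Sum.elim (fun a : A => (a : M)) v)
      (Sum.elim (fun a => Language.Term.var (Sum.inl a)) t a)) =
      Sum.elim (fun a : A => (a : M)) (fun b => g b v) := by
    funext z
    rcases z with a | b
    · rfl
    · exact ht b v
  rw [this]

theorem DP.subst₁ {P : M → Prop} (h : DP L A (fun v : Fin 1 → M => P (v 0)))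
    {g : (α → M) → M} (hg : TF L A g) : DP L A (fun v : α → M => P (g v)) :=
  h.subst (g := fun _ => g) (fun _ => hg)

theorem DP.subst₂ {P : M → M → Prop} (h : DP L A (fun v : Fin 2 → M => P (v 0) (v 1)))
    {g₀ g₁ : (α → M) → M} (h₀ : TF L A g₀) (h₁ : TF L A g₁) :
    DP L A (fun v : α → M => P (g₀ v) (g₁ v)) :=
  h.subst (g := ![g₀, g₁]) (by intro b; fin_cases b; exacts [h₀, h₁])

theorem DP.subst₃ {P : M → M → M → Prop}
    (h : DP L A (fun v : Fin 3 → M => P (v 0) (v 1) (v 2)))
    {g₀ g₁ g₂ : (α → M) → M} (h₀ : TF L A g₀) (h₁ : TF L A g₁) (h₂ : TF L A g₂) :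
    DP L A (fun v : α → M => P (g₀ v) (g₁ v) (g₂ v)) :=
  h.subst (g := ![g₀, g₁, g₂]) (by intro b; fin_cases b; exacts [h₀, h₁, h₂])

theorem DP.subst₄ {P : M → M → M → M → Prop}
    (h : DP L A (fun v : Fin 4 → M => P (v 0) (v 1) (v 2) (v 3)))
    {g₀ g₁ g₂ g₃ : (α → M) → M} (h₀ : TF L A g₀) (h₁ : TF L A g₁) (h₂ : TF L A g₂)
    (h₃ : TF L A g₃) :
    DP L A (fun v : α → M => P (g₀ v) (g₁ v) (g₂ v) (g₃ v)) :=
  h.subst (g := ![g₀, g₁, g₂, g₃]) (by intro b; fin_cases b; exacts [h₀, h₁, h₂, h₃])

end DP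

/-! ### rings -/

section ring

open FirstOrder.Ring

variable {R : Type w} [CommRing R] [FirstOrder.Ring.CompatibleRing R] {A : Set R} {α : Type}

theorem TF.zero : TF Language.ring A (fun _ : α → R => (0 : R)) :=
  TF.fun₀ (zeroFunc : Language.ring.Constants) 0 (fun v => by simp)

theorem TF.one : TF Language.ring A (fun _ : α → R => (1 : R)) :=
  TF.fun₀ (oneFunc : Language.ring.Constants) 1 (fun v => by simp)

theorem TF.add {g h : (α → R) → R} (hg : TF Language.ring A g) (hh : TF Language.ring A h) :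
    TF Language.ring A (fun w => g w + h w) :=
  TF.fun₂ addFunc (fun a b => a + b) (fun v => by simp) hg hh

theorem TF.mul {g h : (α → R) → R} (hg : TF Language.ring A g) (hh : TF Language.ring A h) :
    TF Language.ring A (fun w => g w * h w) :=
  TF.fun₂ mulFunc (fun a b => a * b) (fun v => by simp) hg hh

theorem TF.neg {g : (α → R) → R} (hg : TF Language.ring A g) :
    TF Language.ring A (fun w => - g w) :=
  TF.fun₁ negFunc (fun a => - a) (fun v => by simp) hg

theorem TF.sub {g h : (α → R) → R} (hg : TF Language.ring A g) (hh : TF Language.ring A h) :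
    TF Language.ring A (fun w => g w - h w) := by
  simpa only [sub_eq_add_neg] using hg.add hh.neg

theorem TF.pow {g : (α → R) → R} (hg : TF Language.ring A g) (k : ℕ) :
    TF Language.ring A (fun w => g w ^ k) := by
  induction k with
  | zero => simpa using TF.one (A := A) (α := α) (R := R)
  | succ k ih => simpa only [pow_succ] using ih.mul hg

theorem DP.dvd {g h : (α → R) → R} (hg : TF Language.ring A g) (hh : TF Language.ring A h) :
    DP Language.ring A (fun w => g w ∣ h w) := by
  have : DP Language.ring A (fun v : Fin 2 → R => (v 0) ∣ (v 1)) := by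
    apply DP.ex
    exact DP.eq (TF.var (some 1)) ((TF.var (some 0)).mul (TF.var none))
  exact DP.subst₂ this hg hh

end ring

end Pool.Agent.V11251
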