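import Pool.Agent.V11251.DP

/-!
# Witnesses in elementary substructures
-/

set_option autoImplicit false
set_option linter.unusedVariables false
set_option linter.unusedSectionVars false

open FirstOrder

namespace Pool.Agent.V11251

universe u v w

variable {L : FirstOrder.Language.{u, v}} {M : Type w} [L.Structure M]

theorem DP.witness {α : Type} {P : (α → M) → M → Prop}
    (h : DP L (∅ : Set M) (fun w : Option α → M => P (fun a => w (some a)) (w none)))
    (S : L.ElementarySubstructure M) (v : α → S) (hex : ∃ x, P (fun a => (v a : M)) x) :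
    ∃ x ∈ S, P (fun a => (v a : M)) x := by
  obtain ⟨φ, hφ⟩ := h
  let g : (∅ : Set M) ⊕ Option α → ((∅ : Set M) ⊕ α) ⊕ Fin 1 :=
    Sum.elim (fun a => Sum.inl (Sum.inl a))
      (fun o => o.elim (Sum.inr 0) (fun a => Sum.inl (Sum.inr a)))
  let ψ : L.BoundedFormula ((∅ : Set M) ⊕ α) 1 := Language.BoundedFormula.relabel g φ
  have key : ∀ x : M, ψ.Realize (Sum.elim (fun a : (∅ : Set M) => (a : M)) (fun a => (v a : M)))
      (Fin.snoc default x : Fin 1 → M) ↔ P (fun a => (v a : M)) x := by
    intro x
    rw [Language.BoundedFormula.realize_relabel]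
    have h1 := hφ (fun o => o.elim x (fun a => (v a : M)))
    unfold Language.Formula.Realize at h1
    simp only [Option.elim] at h1
    rw [← h1]
    have e1 : (Sum.elim (Sum.elim (fun a : (∅ : Set M) => (a : M)) (fun a => (v a : M)))
        ((Fin.snoc default x : Fin 1 → M) ∘ Fin.castAdd 0) ∘ g) =
        Sum.elim (fun a : (∅ : Set M) => (a : M)) (fun o : Option α => o.elim x
          (fun a => (v a : M))) := by
      funext z
      rcases z with a | (_ | a)
      · rfl
      · simp [g, Fin.snoc]
      · rfl
    rw [e1]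
    exact iff_of_eq (congrArg _ (Subsingleton.elim _ _))
  let v' : (∅ : Set M) ⊕ α → S := Sum.elim (fun a => a.2.elim) v
  have hv' : (S.subtype ∘ v') =
      Sum.elim (fun a : (∅ : Set M) => (a : M)) (fun a => (v a : M)) := by
    funext z
    rcases z with a | a
    · exact a.2.elim
    · rfl
  obtain ⟨x, hx⟩ := hex
  have h1 : ψ.ex.Realize (S.subtype ∘ v') (S.subtype ∘ (default : Fin 0 → S)) := by
    rw [Language.BoundedFormula.realize_ex]
    refine ⟨x, ?_⟩
    rw [hv']
    have : (S.subtype ∘ (default : Fin 0 → S)) = (default : Fin 0 → M) := Subsingleton.elim _ _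
    rw [this]
    exact (key x).2 hx
  rw [S.subtype.map_boundedFormula, Language.BoundedFormula.realize_ex] at h1
  obtain ⟨y, hy⟩ := h1
  rw [← S.subtype.map_boundedFormula, hv'] at hy
  refine ⟨y, y.2, (key y).1 ?_⟩
  have : (S.subtype ∘ (Fin.snoc default y : Fin 1 → S)) = (Fin.snoc default (y : M) : Fin 1 → M) := by
    funext i
    fin_cases i
    rfl
  rw [← this]
  exact hy

end Pool.Agent.V11251
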